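import Mathlib
import Pool.Agent.Lib.MP_8cdf0c_pr.Main

open MeasureTheory ProbabilityTheory Filter
open scoped NNReal ENNReal Topology

namespace Pool.Agent.Results.MP_8cdf0c_pr.InfiniteComponents

open Pool.Agent.Lib.MP_8cdf0c_pr

/-- The span set `Sp^{[0,1]}(1)` of a path `b : [0, ∞) → ℝ`: the set of all lengths `t - s` of time
intervals with `0 ≤ s ≤ t ≤ 1` and `b s = b t`. -/
def spanSet (b : ℝ≥0 → ℝ) : Set ℝ :=
  {l | ∃ s t : ℝ≥0, s ≤ t ∧ t ≤ 1 ∧ b s = b t ∧ l = (t : ℝ) - (s : ℝ)}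

lemma spanSet_eq (b : ℝ≥0 → ℝ) : spanSet b = spanR (fun t : ℝ ↦ b t.toNNReal) := by
  ext l
  constructor
  · rintro ⟨s, t, hst, ht, hb, rfl⟩
    refine ⟨s, t, s.2, by exact_mod_cast hst, by exact_mod_cast ht, ?_, rfl⟩
    simpa using hb
  · rintro ⟨s, t, hs, hst, ht, hb, rfl⟩
    refine ⟨s.toNNReal, t.toNNReal, Real.toNNReal_le_toNNReal hst, ?_, hb, ?_⟩
    · rw [Real.toNNReal_le_one]; exact ht
    · rw [Real.coe_toNNReal s hs, Real.coe_toNNReal t (hs.trans hst)]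

/-- **Disproof of Q1.** For every standard linear Brownian motion, with positive probability the
span set on the unit interval has infinitely many connected components. -/
theorem result {Ω : Type*} {mΩ : MeasurableSpace Ω} {P : Measure Ω} {B : ℝ≥0 → Ω → ℝ}
    (hB : IsBrownianReal B P) :
    ∃ E : Set Ω, MeasurableSet E ∧ 0 < P E ∧
      ∀ ω ∈ E, Infinite (ConnectedComponents (spanSet (fun t ↦ B t ω))) := by
  have hW := isBM_of_isBrownianReal hB
  have hprob := hW.isProb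
  obtain ⟨M, κ, c0, hκ, hc0, hMm, hMe, hcount⟩ := hW.count
  let T : ℕ → Set Ω := fun n ↦ {ω | κ * rt n ≤
      ∑ k ∈ Finset.range n, (AA M n k).indicator (fun _ ↦ (1 : ℝ)) ω}
  have hTm : ∀ n, MeasurableSet (T n) := fun n ↦ measurableSet_le measurable_const
    (Finset.measurable_fun_sum _ fun k _ ↦ measurable_const.indicator (measurableSet_AA hMm n k))
  have hrt : Tendsto rt atTop atTop := by
    have h1 : Tendsto (fun x : ℝ ↦ x ^ (1 / 4 : ℝ)) atTop atTop := tendsto_rpow_atTop (by norm_num)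
    exact h1.comp tendsto_natCast_atTop_atTop
  -- the event that `T n` happens infinitely often
  let U : ℕ → Set Ω := fun m ↦ ⋃ n ≥ m, T n
  have hUm : ∀ m, MeasurableSet (U m) := fun m ↦
    MeasurableSet.iUnion fun n ↦ MeasurableSet.iUnion fun _ ↦ hTm n
  have hUanti : Antitone U := by
    intro m m' hmm' ω hω
    obtain ⟨n, hn⟩ := Set.mem_iUnion.1 hω
    obtain ⟨hnm, hn⟩ := Set.mem_iUnion.1 hn
    exact Set.mem_iUnion.2 ⟨n, Set.mem_iUnion.2 ⟨hmm'.trans hnm, hn⟩⟩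
  have hUle : ∀ m, ENNReal.ofReal c0 ≤ P (U m) := by
    intro m
    obtain ⟨n, hnm, hn⟩ := ((hrt.eventually_ge_atTop 160).and (eventually_ge_atTop m)).exists
    have h1 := hcount n hnm
    have h2 : ENNReal.ofReal c0 ≤ P (T n) := by
      rw [ENNReal.ofReal_le_iff_le_toReal (measure_ne_top _ _)]
      exact h1
    exact h2.trans (measure_mono fun ω hω ↦ Set.mem_iUnion.2 ⟨n, Set.mem_iUnion.2 ⟨hn, hω⟩⟩)
  have hUlim : ENNReal.ofReal c0 ≤ P (⋂ m, U m) := by
    have h1 := tendsto_measure_iInter_atTop (μ := P) (fun m ↦ (hUm m).nullMeasurableSet) hUanti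
      ⟨0, measure_ne_top _ _⟩
    exact ge_of_tendsto' h1 hUle
  -- the almost sure event
  have hgood : ∀ᵐ ω ∂P, Continuous (fun t : ℝ ↦ B t.toNNReal ω) ∧
      ∀ n k, mm (fun t : ℝ ↦ B t.toNNReal) (gr n k) ω = M (gr n k) ω := by
    have : ∀ᵐ ω ∂P, ∀ n k, mm (fun t : ℝ ↦ B t.toNNReal) (gr n k) ω = M (gr n k) ω :=
      ae_all_iff.2 fun n ↦ ae_all_iff.2 fun k ↦ hMe (gr n k)
    filter_upwards [hW.cont, this] with ω h1 h2 using ⟨h1, h2⟩
  obtain ⟨N, hNsub, hNm, hN0⟩ := exists_measurable_superset_of_null (ae_iff.1 hgood)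
  refine ⟨(⋂ m, U m) ∩ Nᶜ, (MeasurableSet.iInter hUm).inter hNm.compl, ?_, ?_⟩
  · have h1 : P ((⋂ m, U m) ∩ Nᶜ) = P (⋂ m, U m) := by
      rw [← Set.sdiff_eq, measure_sdiff_null hN0]
    rw [h1]
    exact lt_of_lt_of_le (ENNReal.ofReal_pos.2 hc0) hUlim
  · rintro ω ⟨hω, hωN⟩
    have hωg : Continuous (fun t : ℝ ↦ B t.toNNReal ω) ∧
        ∀ n k, mm (fun t : ℝ ↦ B t.toNNReal) (gr n k) ω = M (gr n k) ω := by
      by_contra h
      exact hωN (hNsub h)
    obtain ⟨hcont, hM⟩ := hωg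
    rw [spanSet_eq]
    by_contra hfin
    rw [not_infinite_iff_finite] at hfin
    set C := Nat.card (ConnectedComponents (spanR (fun t : ℝ ↦ B t.toNNReal ω))) with hC
    have hlim : Tendsto (fun n ↦ κ * rt n) atTop atTop := hrt.const_mul_atTop hκ
    obtain ⟨m, hm⟩ := eventually_atTop.1 (hlim.eventually_gt_atTop (2 * C : ℝ))
    have hωm := Set.mem_iInter.1 hω (m + 1)
    obtain ⟨n, hn⟩ := Set.mem_iUnion.1 hωm
    obtain ⟨hnm, hn⟩ := Set.mem_iUnion.1 hn
    have hnm' : m + 1 ≤ n := hnm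
    have hn0 : 0 < n := by omega
    have hbig := hm n (by omega)
    classical
    set 𝒦 := (Finset.range n).filter (fun k ↦ ω ∈ AA M n k) with h𝒦
    have hcard : κ * rt n ≤ 𝒦.card := by
      have h1 : κ * rt n ≤ ∑ k ∈ Finset.range n, (AA M n k).indicator (fun _ ↦ (1 : ℝ)) ω := hn
      refine h1.trans (le_of_eq ?_)
      simp only [Set.indicator_apply, Finset.sum_boole, h𝒦]
    have hspec : ∀ k ∈ 𝒦, (∃ p ∈ spanR (fun t : ℝ ↦ B t.toNNReal ω), p ∈ Set.Icc (gr n k) (gr n (k + 1))) ∧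
        ∃ q ∉ spanR (fun t : ℝ ↦ B t.toNNReal ω), q ∈ Set.Icc (gr n k) (gr n (k + 1)) := by
      intro k hk
      have hk1 := Finset.mem_range.1 (Finset.mem_filter.1 hk).1
      have hk2 : ω ∈ AA M n k := (Finset.mem_filter.1 hk).2
      have hk3 := hk2.2
      have g1 := gr_mem hn0 hk1.le
      have g2 := gr_mem hn0 (Nat.succ_le_of_lt hk1)
      rw [← hM n k, ← hM n (k + 1)] at hk3
      exact signChange_spec hcont (gr_mono n (Nat.le_succ k))
        ⟨by linarith [g1.1], by linarith [g1.2]⟩ ⟨by linarith [g2.1], by linarith [g2.2]⟩ hk3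
    have hle := card_le_two_mul_components (gr_mono n) 𝒦 (fun k hk ↦ (hspec k hk).1)
      (fun k hk ↦ (hspec k hk).2)
    have hle' : (𝒦.card : ℝ) ≤ 2 * C := by exact_mod_cast hle
    linarith

end Pool.Agent.Results.MP_8cdf0c_pr.InfiniteComponents
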